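import Pool.Agent.L7h1.SP.Prod

/-!
# Euler products with quadratic factors over number fields, and twists
-/

set_option autoImplicit false
set_option linter.unusedSectionVars false
set_option linter.unusedVariables false
set_option linter.style.haveILetI false

open IsDedekindDomain NumberField
open scoped Classical

namespace Pool.Agent.L7h1.AB

open Pool.Agent.H921R2.TatePole (nm two_le_nm nm_summable)
open Pool.Agent.L7h1.QB (nm_ne norm_cpow fin_mem)
open Pool.Agent.L7h1.SP (fib mem_fib mem_fib')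

section nonvan
variable {K : Type} [Field K] [NumberField K]

/-- the inverse of the factor -/
def lf (t u : HeightOneSpectrum (𝓞 K) → ℂ) (v : HeightOneSpectrum (𝓞 K)) (X : ℂ) : ℂ :=
  1 - t v * X + u v * X ^ 2

/-- the roots are bounded by the square root of the norm -/
def Bd (t u : HeightOneSpectrum (𝓞 K) → ℂ) : Prop :=
  ∀ v, ∃ x y : ℂ, t v = x + y ∧ u v = x * y ∧ ‖x‖ ≤ (nm v : ℝ) ^ (1 / 2 : ℝ) ∧
    ‖y‖ ≤ (nm v : ℝ) ^ (1 / 2 : ℝ)

lemma lf_ne {t u : HeightOneSpectrum (𝓞 K) → ℂ} (h : Bd t u) (v : HeightOneSpectrum (𝓞 K)) {s : ℂ}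
    (hs : 1 / 2 < s.re) : lf t u v ((nm v : ℂ) ^ (-s)) ≠ 0 := by
  obtain ⟨x, y, h1, h2, hx, hy⟩ := h v
  have hq1 : (1 : ℝ) < (nm v : ℝ) := by
    have := two_le_nm v
    exact_mod_cast (by omega : 1 < nm v)
  have hq0 : (0 : ℝ) < (nm v : ℝ) := by linarith
  have key : ∀ y : ℂ, ‖y‖ ≤ (nm v : ℝ) ^ (1 / 2 : ℝ) → 1 - y * (nm v : ℂ) ^ (-s) ≠ 0 := by
    intro y hy h0
    have h1 : y * (nm v : ℂ) ^ (-s) = 1 := by linear_combination -h0
    have h5 := congrArg norm h1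
    rw [norm_mul, norm_cpow, norm_one] at h5
    have h6 : ‖y‖ * (nm v : ℝ) ^ (-s.re) ≤ (nm v : ℝ) ^ (1 / 2 : ℝ) * (nm v : ℝ) ^ (-s.re) := by
      gcongr
    rw [← Real.rpow_add hq0] at h6
    have h7 := Real.rpow_lt_one_of_one_lt_of_neg hq1 (z := 1 / 2 + -s.re) (by linarith)
    linarith
  have e : lf t u v ((nm v : ℂ) ^ (-s)) = (1 - x * (nm v : ℂ) ^ (-s)) *
      (1 - y * (nm v : ℂ) ^ (-s)) := by
    unfold lf
    rw [h1, h2]
    ring
  rw [e]
  exact mul_ne_zero (key _ hx) (key _ hy)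

lemma lf_sub {t u : HeightOneSpectrum (𝓞 K) → ℂ} (h : Bd t u) (v : HeightOneSpectrum (𝓞 K)) {s : ℂ}
    (hs : 3 / 2 < s.re) :
    ‖lf t u v ((nm v : ℂ) ^ (-s)) - 1‖ ≤ 3 * (nm v : ℝ) ^ (-(s.re - 1 / 2)) := by
  have hq1 : (1 : ℝ) < (nm v : ℝ) := by
    have := two_le_nm v
    exact_mod_cast (by omega : 1 < nm v)
  have hq0 : (0 : ℝ) < (nm v : ℝ) := by linarith
  obtain ⟨x, y, h1, h2, hx, hy⟩ := h v
  set X := (nm v : ℂ) ^ (-s) with hX
  have hXn : ‖X‖ = (nm v : ℝ) ^ (-s.re) := norm_cpow v s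
  have e : lf t u v X - 1 = -(x * X) - y * X + (x * X) * (y * X) := by
    unfold lf
    rw [h1, h2]
    ring
  have key : ∀ y : ℂ, ‖y‖ ≤ (nm v : ℝ) ^ (1 / 2 : ℝ) →
      ‖y * X‖ ≤ (nm v : ℝ) ^ (-(s.re - 1 / 2)) := by
    intro y hy
    have e1 : -(s.re - 1 / 2) = 1 / 2 + -s.re := by ring
    rw [norm_mul, hXn, e1, Real.rpow_add hq0]
    gcongr
  have hx' := key x hx
  have hy' := key y hy
  set z := (nm v : ℝ) ^ (-(s.re - 1 / 2)) with hzd
  have hz0 : 0 ≤ z := by positivity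
  have hz1 : z ≤ 1 := Real.rpow_le_one_of_one_le_of_nonpos hq1.le (by linarith)
  rw [e]
  calc ‖-(x * X) - y * X + (x * X) * (y * X)‖
      ≤ ‖-(x * X)‖ + ‖y * X‖ + ‖(x * X) * (y * X)‖ :=
        (norm_add_le _ _).trans (by gcongr; exact norm_sub_le _ _)
    _ ≤ z + z + z * z := by
        rw [norm_neg, norm_mul (x * X)]
        gcongr
    _ ≤ 3 * z := by nlinarith

/-- the Euler product is not zero -/
theorem euler_ne {t u : HeightOneSpectrum (𝓞 K) → ℂ} (h : Bd t u) {s : ℂ}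
    (hs : 3 / 2 < s.re) {L : ℂ}
    (hL : HasProd (fun v : HeightOneSpectrum (𝓞 K) => (lf t u v ((nm v : ℂ) ^ (-s)))⁻¹) L) :
    L ≠ 0 := by
  have h1 : Summable fun v : HeightOneSpectrum (𝓞 K) => 3 * (nm v : ℝ) ^ (-(s.re - 1 / 2)) :=
    (nm_summable (by linarith)).mul_left 3
  have h2 : Summable fun v : HeightOneSpectrum (𝓞 K) => ‖lf t u v ((nm v : ℂ) ^ (-s)) - 1‖ :=
    Summable.of_nonneg_of_le (fun v => norm_nonneg _) (fun v => lf_sub h v hs) h1
  have h3 : Multipliable fun v : HeightOneSpectrum (𝓞 K) =>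
      1 + (lf t u v ((nm v : ℂ) ^ (-s)) - 1) := multipliable_one_add_of_summable h2
  obtain ⟨M, hM⟩ := h3
  have h4 : HasProd (fun v : HeightOneSpectrum (𝓞 K) => (lf t u v ((nm v : ℂ) ^ (-s)))) M :=
    hM.congr_fun fun v => by ring
  have h5 := hL.mul h4
  have h6 : HasProd (fun v : HeightOneSpectrum (𝓞 K) => (1 : ℂ)) (L * M) :=
    h5.congr_fun fun v => (inv_mul_cancel₀ (lf_ne h v (by linarith))).symm
  have h7 : L * M = 1 := h6.unique hasProd_one
  intro h0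
  rw [h0, zero_mul] at h7
  exact zero_ne_one h7

lemma lf_diff (t u : HeightOneSpectrum (𝓞 K) → ℂ) (v : HeightOneSpectrum (𝓞 K)) :
    Differentiable ℂ (fun s : ℂ => lf t u v ((nm v : ℂ) ^ (-s))) := by
  have h4 : Differentiable ℂ (fun s : ℂ => (nm v : ℂ) ^ (-s)) := by
    intro s
    exact DifferentiableAt.const_cpow (by fun_prop) (Or.inl (nm_ne v))
  unfold lf
  exact ((differentiable_const _).sub ((differentiable_const _).mul h4)).add
    ((differentiable_const _).mul (h4.pow 2))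

/-- `L` is meromorphic, holomorphic and not zero at `1`, and equal to the Euler product -/
structure Cont (t u : HeightOneSpectrum (𝓞 K) → ℂ) (L : ℂ → ℂ) : Prop where
  mer : MeromorphicOn L Set.univ
  an : AnalyticAt ℂ L 1
  ne : L 1 ≠ 0
  prod : ∀ s : ℂ, 3 / 2 < s.re →
    HasProd (fun v : HeightOneSpectrum (𝓞 K) => (lf t u v ((nm v : ℂ) ^ (-s)))⁻¹) (L s)

/-- the Euler product without finitely many factors -/
theorem one {t u : HeightOneSpectrum (𝓞 K) → ℂ} (h : Bd t u) {L₀ : ℂ → ℂ} (hL : Cont t u L₀)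
    {B : 𝓞 K} (hB : B ≠ 0) :
    ∃ L : ℂ → ℂ, MeromorphicOn L Set.univ ∧ AnalyticAt ℂ L 1 ∧ L 1 ≠ 0 ∧
      ∀ s : ℂ, 3 / 2 < s.re →
        HasProd (fun v : {v : HeightOneSpectrum (𝓞 K) // B ∉ v.asIdeal} =>
          (lf t u v.1 ((nm v.1 : ℂ) ^ (-s)))⁻¹) (L s) := by
  have hfin := fin_mem (K := K) hB
  let C : ℂ → ℂ := fun s => ∏ v ∈ hfin.toFinset, lf t u v ((nm v : ℂ) ^ (-s))
  have hCd : Differentiable ℂ C := Differentiable.fun_finsetProd fun v _ => lf_diff t u v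
  have hC1 : C 1 ≠ 0 := Finset.prod_ne_zero_iff.2 fun v _ => lf_ne h v (by norm_num)
  refine ⟨fun s => L₀ s * C s, fun s _ => ?_, ?_, ?_, fun s hs => ?_⟩
  · exact (hL.mer s (Set.mem_univ _)).mul (hCd.analyticAt s).meromorphicAt
  · exact hL.an.mul (hCd.analyticAt 1)
  · exact mul_ne_zero hL.ne hC1
  · have a1 := hL.prod s hs
    have h6 : HasProd (fun v : HeightOneSpectrum (𝓞 K) => if B ∈ v.asIdeal then
        lf t u v ((nm v : ℂ) ^ (-s)) else 1)
        (∏ v ∈ hfin.toFinset, if B ∈ v.asIdeal then lf t u v ((nm v : ℂ) ^ (-s)) else 1) := by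
      refine hasProd_prod_of_ne_finset_one fun v hv => ?_
      rw [if_neg]
      intro h
      exact hv (hfin.mem_toFinset.2 h)
    have h7 : (∏ v ∈ hfin.toFinset, if B ∈ v.asIdeal then
        lf t u v ((nm v : ℂ) ^ (-s)) else 1) = C s :=
      Finset.prod_congr rfl fun p hp => if_pos (hfin.mem_toFinset.1 hp)
    rw [h7] at h6
    have h8 : HasProd (fun v : {v : HeightOneSpectrum (𝓞 K) | B ∉ v.asIdeal} =>
        (lf t u v.1 ((nm v.1 : ℂ) ^ (-s)))⁻¹) (L₀ s * C s) := by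
      rw [← Function.comp_def (f := fun v : HeightOneSpectrum (𝓞 K) =>
        (lf t u v ((nm v : ℂ) ^ (-s)))⁻¹), hasProd_subtype_iff_mulIndicator]
      refine (a1.mul h6).congr_fun fun v => ?_
      by_cases hv : B ∈ v.asIdeal
      · rw [if_pos hv, Set.mulIndicator_of_notMem (by simpa using hv)]
        exact (inv_mul_cancel₀ (lf_ne h v (by linarith))).symm
      · rw [if_neg hv, Set.mulIndicator_of_mem (by simpa using hv), mul_one]
    exact h8

end nonvan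

section twist
variable {k K : Type} [Field k] [NumberField k] [Field K] [NumberField K] [Algebra k K]

/-- the product over the places above `v` -/
noncomputable def P (T U : HeightOneSpectrum (𝓞 K) → ℂ) (v : HeightOneSpectrum (𝓞 k)) (s : ℂ) : ℂ :=
  ∏ w ∈ fib K v, lf T U w ((nm w : ℂ) ^ (-s))

lemma P_ne {T U : HeightOneSpectrum (𝓞 K) → ℂ} (h : Bd T U)
    (v : HeightOneSpectrum (𝓞 k)) {s : ℂ} (hs : 1 / 2 < s.re) : P T U v s ≠ 0 :=
  Finset.prod_ne_zero_iff.2 fun w _ => lf_ne h w hs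

lemma P_diff (T U : HeightOneSpectrum (𝓞 K) → ℂ) (v : HeightOneSpectrum (𝓞 k)) :
    Differentiable ℂ (P T U v) := by
  unfold P
  exact Differentiable.fun_finsetProd fun w _ => lf_diff T U w

/-- grouping the places of `K` -/
theorem group {T U : HeightOneSpectrum (𝓞 K) → ℂ} {s : ℂ} {L : ℂ}
    (hL : HasProd (fun w : HeightOneSpectrum (𝓞 K) => (lf T U w ((nm w : ℂ) ^ (-s)))⁻¹) L) :
    HasProd (fun v : HeightOneSpectrum (𝓞 k) => (P T U v s)⁻¹) L := by
  let un : HeightOneSpectrum (𝓞 K) → HeightOneSpectrum (𝓞 k) := fun w => w.under (𝓞 k)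
  have h1 : HasProd (fun x : (Σ v : HeightOneSpectrum (𝓞 k), {w // un w = v}) =>
      (lf T U x.2.1 ((nm x.2.1 : ℂ) ^ (-s)))⁻¹) L :=
    (Equiv.hasProd_iff (Equiv.sigmaFiberEquiv un)
      (f := fun w : HeightOneSpectrum (𝓞 K) => (lf T U w ((nm w : ℂ) ^ (-s)))⁻¹)).2 hL
  refine h1.sigma fun v => ?_
  have hS : ∀ w : HeightOneSpectrum (𝓞 K), w ∈ fib K v ↔ un w = v := fun w => mem_fib
  have h2 : HasProd (fun c : {w // w ∈ fib K v} => (lf T U c.1 ((nm c.1 : ℂ) ^ (-s)))⁻¹)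
      (∏ w ∈ fib K v, (lf T U w ((nm w : ℂ) ^ (-s)))⁻¹) := by
    have h3 := hasProd_fintype (fun c : {w // w ∈ fib K v} => (lf T U c.1 ((nm c.1 : ℂ) ^ (-s)))⁻¹)
    have h4 : ∏ c : {w // w ∈ fib K v}, (lf T U c.1 ((nm c.1 : ℂ) ^ (-s)))⁻¹ =
        ∏ w ∈ fib K v, (lf T U w ((nm w : ℂ) ^ (-s)))⁻¹ :=
      Finset.prod_coe_sort (fib K v) (fun w => (lf T U w ((nm w : ℂ) ^ (-s)))⁻¹)
    rwa [h4] at h3
  unfold P
  rw [← Finset.prod_inv_distrib]
  exact (Equiv.hasProd_iff (Equiv.subtypeEquivRight hS).symm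
    (f := fun c : {w // w ∈ fib K v} => (lf T U c.1 ((nm c.1 : ℂ) ^ (-s)))⁻¹)).2 h2

/-- **The Euler product of the twist.** -/
theorem twist {t u : HeightOneSpectrum (𝓞 k) → ℂ} {T U : HeightOneSpectrum (𝓞 K) → ℂ}
    (h : Bd t u) (H : Bd T U) {Lk LK : ℂ → ℂ} (hk : Cont t u Lk) (hK : Cont T U LK)
    {B : 𝓞 k} (hB : B ≠ 0) (χ : HeightOneSpectrum (𝓞 k) → ℂ)
    (hχ : ∀ v : HeightOneSpectrum (𝓞 k), B ∉ v.asIdeal → ∀ s : ℂ, P T U v s =
      lf t u v ((nm v : ℂ) ^ (-s)) * lf t u v (χ v * (nm v : ℂ) ^ (-s))) :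
    ∃ L : ℂ → ℂ, MeromorphicOn L Set.univ ∧ AnalyticAt ℂ L 1 ∧ L 1 ≠ 0 ∧
      ∀ s : ℂ, 3 / 2 < s.re →
        HasProd (fun v : {v : HeightOneSpectrum (𝓞 k) // B ∉ v.asIdeal} =>
          (lf t u v.1 (χ v.1 * (nm v.1 : ℂ) ^ (-s)))⁻¹) (L s) := by
  have hfin := fin_mem (K := k) hB
  let C : ℂ → ℂ := fun s => ∏ v ∈ hfin.toFinset, (P T U v s * (lf t u v ((nm v : ℂ) ^ (-s)))⁻¹)
  have hCm : ∀ s, MeromorphicAt C s := by
    intro s
    refine MeromorphicAt.fun_prod fun v _ => ?_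
    exact ((P_diff T U v).analyticAt s).meromorphicAt.mul
      ((lf_diff t u v).analyticAt s).meromorphicAt.inv
  have hCa : AnalyticAt ℂ C 1 := by
    refine Finset.analyticAt_fun_prod _ fun v _ => ?_
    exact ((P_diff T U v).analyticAt 1).mul
      (((lf_diff t u v).analyticAt 1).inv (lf_ne h v (by norm_num)))
  have hC1 : C 1 ≠ 0 := Finset.prod_ne_zero_iff.2 fun v _ =>
    mul_ne_zero (P_ne H v (by norm_num)) (inv_ne_zero (lf_ne h v (by norm_num)))
  refine ⟨fun s => LK s * (Lk s)⁻¹ * C s, fun s _ => ?_, ?_, ?_, fun s hs => ?_⟩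
  · exact ((hK.mer s (Set.mem_univ _)).mul (hk.mer s (Set.mem_univ _)).inv).mul (hCm s)
  · exact (hK.an.mul (hk.an.inv hk.ne)).mul hCa
  · exact mul_ne_zero (mul_ne_zero hK.ne (inv_ne_zero hk.ne)) hC1
  · have a1 := hk.prod s hs
    have a2 := hK.prod s hs
    have hne := euler_ne h hs a1
    have a3 := a1.inv₀ hne
    have a4 := group (k := k) (T := T) (U := U) a2
    have a5 := a4.mul a3
    have h6 : HasProd (fun v : HeightOneSpectrum (𝓞 k) => if B ∈ v.asIdeal then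
        P T U v s * (lf t u v ((nm v : ℂ) ^ (-s)))⁻¹ else 1)
        (∏ v ∈ hfin.toFinset, if B ∈ v.asIdeal then
          P T U v s * (lf t u v ((nm v : ℂ) ^ (-s)))⁻¹ else 1) := by
      refine hasProd_prod_of_ne_finset_one fun v hv => ?_
      rw [if_neg]
      intro h
      exact hv (hfin.mem_toFinset.2 h)
    have h7 : (∏ v ∈ hfin.toFinset, if B ∈ v.asIdeal then
        P T U v s * (lf t u v ((nm v : ℂ) ^ (-s)))⁻¹ else 1) = C s :=
      Finset.prod_congr rfl fun p hp => if_pos (hfin.mem_toFinset.1 hp)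
    rw [h7] at h6
    have h8 : HasProd (fun v : {v : HeightOneSpectrum (𝓞 k) | B ∉ v.asIdeal} =>
        (lf t u v.1 (χ v.1 * (nm v.1 : ℂ) ^ (-s)))⁻¹) (LK s * (Lk s)⁻¹ * C s) := by
      rw [← Function.comp_def (f := fun v : HeightOneSpectrum (𝓞 k) =>
        (lf t u v (χ v * (nm v : ℂ) ^ (-s)))⁻¹), hasProd_subtype_iff_mulIndicator]
      refine (a5.mul h6).congr_fun fun v => ?_
      have hl := lf_ne h v (s := s) (by linarith)
      have hP := P_ne H v (s := s) (by linarith)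
      by_cases hv : B ∈ v.asIdeal
      · rw [if_pos hv, Set.mulIndicator_of_notMem (by simpa using hv)]
        field_simp
      · rw [if_neg hv, Set.mulIndicator_of_mem (by simpa using hv), mul_one]
        have h9 := hχ v hv s
        rw [h9] at hP ⊢
        have h10 := right_ne_zero_of_mul hP
        field_simp
    exact h8

end twist

end Pool.Agent.L7h1.AB
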